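import Pool.Agent.R319.SG.FB

/-!
# SG6-FO: the almost sure exponent with a lower bound for the dimensions (piece `forcingBC`)
-/

set_option linter.all false

open MeasureTheory ProbabilityTheory Filter Topology
open scoped ENNReal

namespace Pool.Agent.R319.SF

open Pool.Agent.R319.SG

/-- comparison of `log Y / log k` with a real exponent `b`, from above. -/
theorem fo_log_div_le {y : ℝ≥0∞} {k : ℕ} (hk : 2 ≤ k) {b : ℝ}
    (h : y ≤ ENNReal.ofReal ((k : ℝ) ^ b)) :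
    ENNReal.log y / ((Real.log k : ℝ) : EReal) ≤ (b : EReal) := by
  have hk1 : (1 : ℝ) < (k : ℝ) := by exact_mod_cast hk
  have hk0 : (0 : ℝ) < (k : ℝ) := by linarith
  have hlog : 0 < Real.log k := Real.log_pos hk1
  have h1 : ENNReal.log y ≤ ((b * Real.log k : ℝ) : EReal) := by
    refine (ENNReal.log_monotone h).trans ?_
    rw [ENNReal.log_ofReal_of_pos (Real.rpow_pos_of_pos hk0 b), Real.log_rpow hk0]
  rw [EReal.div_le_iff_le_mul (by exact_mod_cast hlog) (EReal.coe_ne_top _)]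
  rw [EReal.coe_mul] at h1
  rw [mul_comm]
  exact h1

/-- comparison of `log Y / log k` with a real exponent `b`, from below. -/
theorem fo_le_log_div {y : ℝ≥0∞} {k : ℕ} (hk : 2 ≤ k) {b : ℝ}
    (h : ENNReal.ofReal ((k : ℝ) ^ b) ≤ y) :
    (b : EReal) ≤ ENNReal.log y / ((Real.log k : ℝ) : EReal) := by
  have hk1 : (1 : ℝ) < (k : ℝ) := by exact_mod_cast hk
  have hk0 : (0 : ℝ) < (k : ℝ) := by linarith
  have hlog : 0 < Real.log k := Real.log_pos hk1
  have h1 : ((b * Real.log k : ℝ) : EReal) ≤ ENNReal.log y := by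
    refine le_trans ?_ (ENNReal.log_monotone h)
    rw [ENNReal.log_ofReal_of_pos (Real.rpow_pos_of_pos hk0 b), Real.log_rpow hk0]
  rw [EReal.le_div_iff_mul_le (by exact_mod_cast hlog) (EReal.coe_ne_top _)]
  rw [EReal.coe_mul] at h1
  exact h1


theorem fo_upper {Ω : Type*} [MeasurableSpace Ω] (P : Measure Ω) [IsProbabilityMeasure P]
    (Y : ℕ → Ω → ℝ≥0∞) (hY : ∀ k, Measurable (Y k)) (hind : iIndepFun Y P) (β : ℝ) (hβ : β < 0)
    (hup : ∀ b : ℝ, β < b → b < 0 →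
      ∑' k : ℕ, P {ω | Y k ω ≤ ENNReal.ofReal ((k : ℝ) ^ b)} = ∞) :
    ∀ᵐ ω ∂P, liminf (fun k : ℕ => ENNReal.log (Y k ω) / ((Real.log k : ℝ) : EReal)) atTop
      ≤ ((β : ℝ) : EReal) := by
  have hB : ∀ᵐ ω ∂P, ∀ q : ℚ, (β < (q : ℝ) ∧ (q : ℝ) < 0) →
        liminf (fun k : ℕ => ENNReal.log (Y k ω) / ((Real.log k : ℝ) : EReal)) atTop
          ≤ (((q : ℝ)) : EReal) := by
    rw [ae_all_iff]
    intro q
    by_cases hq : β < (q : ℝ) ∧ (q : ℝ) < 0
    · have hmeas : ∀ k : ℕ, MeasurableSet {ω | Y k ω ≤ ENNReal.ofReal ((k : ℝ) ^ (q : ℝ))} :=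
        fun k => measurableSet_le (hY k) measurable_const
      have hindep : iIndepSet
          (fun k : ℕ => {ω | Y k ω ≤ ENNReal.ofReal ((k : ℝ) ^ (q : ℝ))}) P := by
        rw [iIndepSet_iff_meas_biInter hmeas]
        intro S
        exact hind.measure_inter_preimage_eq_mul S
          (sets := fun k : ℕ => Set.Iic (ENNReal.ofReal ((k : ℝ) ^ (q : ℝ))))
          (fun k _ => measurableSet_Iic)
      have h1 := measure_limsup_eq_one hmeas hindep (hup q hq.1 hq.2)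
      have hms : MeasurableSet (limsup
          (fun k : ℕ => {ω | Y k ω ≤ ENNReal.ofReal ((k : ℝ) ^ (q : ℝ))}) atTop) :=
        MeasurableSet.measurableSet_limsup hmeas
      have h2 : ∀ᵐ ω ∂P, ω ∈ limsup
          (fun k : ℕ => {ω | Y k ω ≤ ENNReal.ofReal ((k : ℝ) ^ (q : ℝ))}) atTop := by
        rw [← prob_compl_eq_zero_iff hms] at h1
        exact h1
      filter_upwards [h2] with ω hω _
      rw [mem_limsup_iff_frequently_mem] at hω
      refine liminf_le_of_frequently_le' ?_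
      have h3 : ∃ᶠ k : ℕ in atTop, 2 ≤ k ∧
          ω ∈ {ω | Y k ω ≤ ENNReal.ofReal ((k : ℝ) ^ (q : ℝ))} := by
        exact (hω.and_eventually (eventually_ge_atTop 2)).mono (fun k hk => ⟨hk.2, hk.1⟩)
      exact h3.mono (fun k hk => fo_log_div_le hk.1 hk.2)
    · exact Eventually.of_forall (fun ω h => absurd h hq)
  filter_upwards [hB] with ω h2
  by_contra hcon
  push Not at hcon
  have h0 : ((β : ℝ) : EReal) < min (liminf (fun k : ℕ => ENNReal.log (Y k ω) /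
      ((Real.log k : ℝ) : EReal)) atTop) (((0 : ℝ)) : EReal) :=
    lt_min hcon (by exact_mod_cast hβ)
  obtain ⟨q, hq1, hq2⟩ := EReal.lt_iff_exists_rat_btwn.1 h0
  rw [lt_min_iff] at hq2
  have h3 : β < (q : ℝ) := by exact_mod_cast hq1
  have h4 : (q : ℝ) < 0 := by exact_mod_cast hq2.2
  exact absurd (h2 q ⟨h3, h4⟩) (not_le.2 hq2.1)

theorem fo_lower {Ω : Type*} [MeasurableSpace Ω] (P : Measure Ω) [IsProbabilityMeasure P]
    (Y : ℕ → Ω → ℝ≥0∞) (γ β : ℝ) (hβ : γ < β)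
    (hlow : ∀ b : ℝ, γ < b → b < β →
      ∑' k : ℕ, P {ω | Y k ω ≤ ENNReal.ofReal ((k : ℝ) ^ b)} ≠ ∞) :
    ∀ᵐ ω ∂P, ((β : ℝ) : EReal) ≤
      liminf (fun k : ℕ => ENNReal.log (Y k ω) / ((Real.log k : ℝ) : EReal)) atTop := by
  have hA : ∀ᵐ ω ∂P, ∀ q : ℚ, (γ < (q : ℝ) ∧ (q : ℝ) < β) →
      (((q : ℝ)) : EReal) ≤
        liminf (fun k : ℕ => ENNReal.log (Y k ω) / ((Real.log k : ℝ) : EReal)) atTop := by
    rw [ae_all_iff]
    intro q
    by_cases hq : γ < (q : ℝ) ∧ (q : ℝ) < β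
    · filter_upwards [ae_eventually_notMem (hlow q hq.1 hq.2)] with ω hω _
      refine le_liminf_of_le (by isBoundedDefault) ?_
      filter_upwards [hω, eventually_ge_atTop 2] with k hk hk2
      refine fo_le_log_div hk2 ?_
      simp only [not_le] at hk
      exact hk.le
    · exact Eventually.of_forall (fun ω h => absurd h hq)
  filter_upwards [hA] with ω h1
  by_contra hcon
  push Not at hcon
  have h0 : max (liminf (fun k : ℕ => ENNReal.log (Y k ω) /
      ((Real.log k : ℝ) : EReal)) atTop) ((γ : ℝ) : EReal) < ((β : ℝ) : EReal) :=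
    max_lt hcon (by exact_mod_cast hβ)
  obtain ⟨q, hq1, hq2⟩ := EReal.lt_iff_exists_rat_btwn.1 h0
  rw [max_lt_iff] at hq1
  have h3 : γ < (q : ℝ) := by exact_mod_cast hq1.2
  have h4 : (q : ℝ) < β := by exact_mod_cast hq2
  exact absurd (h1 q ⟨h3, h4⟩) (not_le.2 hq1.1)

theorem fo_ev {x : ℝ} (C : ℝ) (hx : 0 < x) : ∀ᶠ k : ℕ in atTop, C ≤ (k : ℝ) ^ x :=
  ((tendsto_rpow_atTop hx).comp tendsto_natCast_atTop_atTop).eventually_ge_atTop C

theorem fo_floor {x : ℝ} (hx : 1 ≤ x) : x / 2 ≤ (⌊x⌋₊ : ℝ) := by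
  have h1 : 1 ≤ ⌊x⌋₊ := Nat.one_le_floor_iff _ |>.2 hx
  have h2 : (1 : ℝ) ≤ (⌊x⌋₊ : ℝ) := by exact_mod_cast h1
  have h3 := Nat.lt_floor_add_one x
  linarith

theorem forcingBC {N D : ℕ → ℕ} (hN : ∀ k, 2 ≤ N k)
    (hlogN : Tendsto (fun k : ℕ => Real.log (N k) / Real.log k) atTop (𝓝 0))
    {c : ℝ} (hc : 0 < c)
    (hD : ∀ e : ℝ, e < c → ∀ᶠ k : ℕ in atTop, (k : ℝ) ^ e ≤ (D k : ℝ))
    {Ω : Type*} [MeasurableSpace Ω] (P : Measure Ω) [IsProbabilityMeasure P]
    (Y : ℕ → Ω → ℝ≥0∞) (hY : ∀ k, Measurable (Y k)) (hind : iIndepFun Y P)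
    (hup : ∀ k m : ℕ, 1 ≤ m → 2 * m ≤ D k →
      P {ω | Y k ω ≤ ENNReal.ofReal (1 / m)} ≤
        ENNReal.ofReal (2500 * (4 * (N k : ℝ) + 1) ^ 3 * (N k : ℝ) ^ 2 / (m : ℝ) ^ 3))
    (hlow : ∀ k m : ℕ, 1 ≤ m → 3 * m ≤ D k →
      ENNReal.ofReal (1 / (25600 * (N k : ℝ) ^ 2 * (m : ℝ) ^ 3)) ≤
        P {ω | Y k ω ≤ ENNReal.ofReal (4000 * (N k : ℝ) * (4 * (N k : ℝ) + 1) ^ 2 / m)}) :
    ∀ᵐ ω ∂P,
      liminf (fun k : ℕ => ENNReal.log (Y k ω) / ((Real.log k : ℝ) : EReal)) atTop ≤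
        ((-(min c (1 / 3)) : ℝ) : EReal) ∧
      (1 / 3 < c → liminf (fun k : ℕ => ENNReal.log (Y k ω) / ((Real.log k : ℝ) : EReal)) atTop =
        ((-1 / 3 : ℝ) : EReal)) := by
  -- the upper bound
  have hA : ∀ᵐ ω ∂P, liminf (fun k : ℕ => ENNReal.log (Y k ω) /
      ((Real.log k : ℝ) : EReal)) atTop ≤ ((-(min c (1 / 3)) : ℝ) : EReal) := by
    have he0 : 0 < min c (1 / 3) := lt_min hc (by norm_num)
    have he1 : min c (1 / 3) ≤ 1 / 3 := min_le_right _ _
    have he2 : min c (1 / 3) ≤ c := min_le_left _ _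
    generalize min c (1 / 3) = e0 at he0 he1 he2 ⊢
    refine fo_upper P Y hY hind (-e0) (by linarith) ?_
    intro b hb hb0
    obtain ⟨δ, hδ⟩ : ∃ δ, δ = b + e0 := ⟨_, rfl⟩
    have hδ0 : 0 < δ := by linarith
    by_contra hne
    have h5 : ∑' k : ℕ, ENNReal.ofReal ((1 / 25600) / (k : ℝ)) ≠ ∞ := by
      refine FBAux.tsum_ne_top_of_eventually_le (fun k => ENNReal.ofReal_ne_top) ?_ hne
      filter_upwards [FBAux.N_le hN hlogN (by linarith : 0 < δ / 12),
        hD (e0 - δ / 4) (by linarith), fo_ev 3 (by linarith : 0 < δ / 4),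
        fo_ev 200000 (by linarith : 0 < δ / 4), eventually_ge_atTop 1] with k h1 h2 h3 h4 hk1
      have hk0 : (0 : ℝ) < k := by exact_mod_cast hk1
      have hk1' : (1 : ℝ) ≤ k := by exact_mod_cast hk1
      have hN0 : (0 : ℝ) < N k := by
        have := hN k
        exact_mod_cast (by omega : 0 < N k)
      have hN1 : (1 : ℝ) ≤ N k := by
        have := hN k
        exact_mod_cast (by omega : 1 ≤ N k)
      have hx1 : 1 ≤ (k : ℝ) ^ (e0 - δ / 2) := Real.one_le_rpow hk1' (by linarith)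
      obtain ⟨m, hm⟩ : ∃ m : ℕ, m = ⌊(k : ℝ) ^ (e0 - δ / 2)⌋₊ := ⟨_, rfl⟩
      have hm1 : 1 ≤ m := by
        rw [hm]
        exact Nat.one_le_floor_iff _ |>.2 hx1
      have hm1' : (1 : ℝ) ≤ m := by exact_mod_cast hm1
      have hmle : (m : ℝ) ≤ (k : ℝ) ^ (e0 - δ / 2) := by
        rw [hm]
        exact Nat.floor_le (by positivity)
      have hmge : (k : ℝ) ^ (e0 - δ / 2) / 2 ≤ m := by
        rw [hm]
        exact fo_floor hx1
      have hDm : 3 * m ≤ D k := by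
        have h6 : 3 * (m : ℝ) ≤ D k := by
          refine le_trans ?_ h2
          have h7 : (k : ℝ) ^ (e0 - δ / 4) = (k : ℝ) ^ (δ / 4) * (k : ℝ) ^ (e0 - δ / 2) := by
            rw [← Real.rpow_add hk0]
            congr 1
            ring
          rw [h7]
          exact mul_le_mul h3 hmle (by positivity) (by positivity)
        exact_mod_cast h6
      refine le_trans ?_ ((hlow k m hm1 hDm).trans (measure_mono ?_))
      · refine ENNReal.ofReal_le_ofReal ?_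
        rw [div_div]
        refine one_div_le_one_div_of_le (by positivity) ?_
        have h8 : (N k : ℝ) ^ 2 * (m : ℝ) ^ 3 ≤ k := by
          have h9 : (N k : ℝ) ^ 2 ≤ ((k : ℝ) ^ (δ / 12)) ^ 2 := pow_le_pow_left₀ hN0.le h1 2
          have h10 : (m : ℝ) ^ 3 ≤ ((k : ℝ) ^ (e0 - δ / 2)) ^ 3 :=
            pow_le_pow_left₀ (by positivity) hmle 3
          have h11 : ((k : ℝ) ^ (δ / 12)) ^ 2 * ((k : ℝ) ^ (e0 - δ / 2)) ^ 3 =
              (k : ℝ) ^ (δ / 12 * 2 + (e0 - δ / 2) * 3) := by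
            rw [Real.rpow_add hk0, ← Real.rpow_natCast, ← Real.rpow_natCast,
              ← Real.rpow_mul hk0.le, ← Real.rpow_mul hk0.le]
            norm_num
          calc (N k : ℝ) ^ 2 * (m : ℝ) ^ 3
              ≤ ((k : ℝ) ^ (δ / 12)) ^ 2 * ((k : ℝ) ^ (e0 - δ / 2)) ^ 3 :=
                mul_le_mul h9 h10 (by positivity) (by positivity)
            _ = (k : ℝ) ^ (δ / 12 * 2 + (e0 - δ / 2) * 3) := h11
            _ ≤ (k : ℝ) ^ (1 : ℝ) := Real.rpow_le_rpow_of_exponent_le hk1' (by linarith)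
            _ = k := Real.rpow_one _
        nlinarith
      · intro ω hω
        refine le_trans hω (ENNReal.ofReal_le_ofReal ?_)
        rw [div_le_iff₀ (by positivity)]
        have h12 : (k : ℝ) ^ b * ((k : ℝ) ^ (e0 - δ / 2)) = (k : ℝ) ^ (δ / 4) * (k : ℝ) ^ (δ / 4) := by
          rw [← Real.rpow_add hk0, ← Real.rpow_add hk0]
          congr 1
          linarith
        have h13 : ((k : ℝ) ^ (δ / 12)) ^ 3 = (k : ℝ) ^ (δ / 4) := by
          rw [← Real.rpow_natCast, ← Real.rpow_mul hk0.le]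
          congr 1
          push_cast
          ring
        have h14 : (N k : ℝ) ^ 3 ≤ (k : ℝ) ^ (δ / 4) := by
          rw [← h13]
          exact pow_le_pow_left₀ hN0.le h1 3
        have h15 : 4000 * (N k : ℝ) * (4 * (N k : ℝ) + 1) ^ 2 ≤ 100000 * (N k : ℝ) ^ 3 := by
          have h16 : 4 * (N k : ℝ) + 1 ≤ 5 * N k := by linarith
          calc 4000 * (N k : ℝ) * (4 * (N k : ℝ) + 1) ^ 2
              ≤ 4000 * (N k : ℝ) * (5 * N k) ^ 2 := by gcongr
            _ = 100000 * (N k : ℝ) ^ 3 := by ring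
        have hkb : 0 < (k : ℝ) ^ b := Real.rpow_pos_of_pos hk0 _
        have h17 : 0 < (k : ℝ) ^ (δ / 4) := Real.rpow_pos_of_pos hk0 _
        calc 4000 * (N k : ℝ) * (4 * (N k : ℝ) + 1) ^ 2
            ≤ 100000 * (N k : ℝ) ^ 3 := h15
          _ ≤ 100000 * (k : ℝ) ^ (δ / 4) := by gcongr
          _ ≤ ((k : ℝ) ^ (δ / 4) * (k : ℝ) ^ (δ / 4)) / 2 := by nlinarith
          _ = (k : ℝ) ^ b * ((k : ℝ) ^ (e0 - δ / 2) / 2) := by rw [← h12]; ring
          _ ≤ (k : ℝ) ^ b * m := by gcongr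
    have h7 := ENNReal.summable_toReal h5
    have h8 : Summable (fun k : ℕ => (1 / 25600 : ℝ) * (1 / (k : ℝ))) := by
      refine h7.congr fun k => ?_
      rw [ENNReal.toReal_ofReal (by positivity)]
      ring
    have h9 : Summable (fun k : ℕ => 1 / (k : ℝ)) :=
      (summable_mul_left_iff (by norm_num : (1 / 25600 : ℝ) ≠ 0)).1 h8
    exact Real.not_summable_one_div_natCast h9
  by_cases hc3 : 1 / 3 < c
  · have hB : ∀ᵐ ω ∂P, ((-1 / 3 : ℝ) : EReal) ≤ liminf (fun k : ℕ => ENNReal.log (Y k ω) /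
        ((Real.log k : ℝ) : EReal)) atTop := by
      refine fo_lower P Y (-c) (-1 / 3) (by linarith) ?_
      intro b hbc hb
      have hg : ∑' k : ℕ, ENNReal.ofReal (2500000 * (k : ℝ) ^ ((-1 + 3 * b) / 2)) ≠ ∞ := by
        refine Summable.tsum_ofReal_ne_top ?_
        exact (Real.summable_nat_rpow.2 (by linarith)).mul_left _
      refine FBAux.tsum_ne_top_of_eventually_le (fun k => measure_ne_top P _) ?_ hg
      filter_upwards [FBAux.N_le hN hlogN (by linarith : 0 < (-1 - 3 * b) / 10),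
        hD ((-b + c) / 2) (by linarith), fo_ev 2 (by linarith : 0 < (b + c) / 2),
        eventually_ge_atTop 1] with k h1 h2 h3 hk1
      have hk0 : (0 : ℝ) < k := by exact_mod_cast hk1
      have hk1' : (1 : ℝ) ≤ k := by exact_mod_cast hk1
      have hN0 : (0 : ℝ) < N k := by
        have := hN k
        exact_mod_cast (by omega : 0 < N k)
      have hN1 : (1 : ℝ) ≤ N k := by
        have := hN k
        exact_mod_cast (by omega : 1 ≤ N k)
      have hx1 : 1 ≤ (k : ℝ) ^ (-b) := Real.one_le_rpow hk1' (by linarith)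
      obtain ⟨m, hm⟩ : ∃ m : ℕ, m = ⌊(k : ℝ) ^ (-b)⌋₊ := ⟨_, rfl⟩
      have hm1 : 1 ≤ m := by
        rw [hm]
        exact Nat.one_le_floor_iff _ |>.2 hx1
      have hm1' : (1 : ℝ) ≤ m := by exact_mod_cast hm1
      have hmle : (m : ℝ) ≤ (k : ℝ) ^ (-b) := by
        rw [hm]
        exact Nat.floor_le (by positivity)
      have hmge : (k : ℝ) ^ (-b) / 2 ≤ m := by
        rw [hm]
        exact fo_floor hx1
      have hDm : 2 * m ≤ D k := by
        have h6 : 2 * (m : ℝ) ≤ D k := by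
          refine le_trans ?_ h2
          have h7 : (k : ℝ) ^ ((-b + c) / 2) = (k : ℝ) ^ ((b + c) / 2) * (k : ℝ) ^ (-b) := by
            rw [← Real.rpow_add hk0]
            congr 1
            ring
          rw [h7]
          exact mul_le_mul h3 hmle (by positivity) (by positivity)
        exact_mod_cast h6
      have hkb : (k : ℝ) ^ b ≤ 1 / m := by
        rw [le_div_iff₀ (by positivity)]
        have h8 : (k : ℝ) ^ b * (k : ℝ) ^ (-b) = 1 := by
          rw [← Real.rpow_add hk0, add_neg_cancel, Real.rpow_zero]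
        have h9 : 0 < (k : ℝ) ^ b := Real.rpow_pos_of_pos hk0 _
        calc (k : ℝ) ^ b * m ≤ (k : ℝ) ^ b * (k : ℝ) ^ (-b) := by gcongr
          _ = 1 := h8
      refine le_trans (measure_mono ?_) ((hup k m hm1 hDm).trans (ENNReal.ofReal_le_ofReal ?_))
      · intro ω hω
        exact le_trans hω (ENNReal.ofReal_le_ofReal hkb)
      · rw [div_le_iff₀ (by positivity)]
        have h10 : 4 * (N k : ℝ) + 1 ≤ 5 * N k := by linarith
        have h11 : ((k : ℝ) ^ ((-1 - 3 * b) / 10)) ^ 5 = (k : ℝ) ^ ((-1 - 3 * b) / 2) := by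
          rw [← Real.rpow_natCast, ← Real.rpow_mul hk0.le]
          congr 1
          push_cast
          ring
        have h12 : (N k : ℝ) ^ 5 ≤ (k : ℝ) ^ ((-1 - 3 * b) / 2) := by
          rw [← h11]
          exact pow_le_pow_left₀ hN0.le h1 5
        have h13 : (k : ℝ) ^ ((-1 + 3 * b) / 2) * ((k : ℝ) ^ (-b)) ^ 3 =
            (k : ℝ) ^ ((-1 - 3 * b) / 2) := by
          rw [← Real.rpow_natCast, ← Real.rpow_mul hk0.le, ← Real.rpow_add hk0]
          congr 1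
          push_cast
          ring
        have h14 : 0 < (k : ℝ) ^ ((-1 + 3 * b) / 2) := Real.rpow_pos_of_pos hk0 _
        calc 2500 * (4 * (N k : ℝ) + 1) ^ 3 * (N k : ℝ) ^ 2
            ≤ 2500 * (5 * N k) ^ 3 * (N k : ℝ) ^ 2 := by gcongr
          _ = 312500 * (N k : ℝ) ^ 5 := by ring
          _ ≤ 312500 * (k : ℝ) ^ ((-1 - 3 * b) / 2) := by gcongr
          _ = 2500000 * (k : ℝ) ^ ((-1 + 3 * b) / 2) * ((k : ℝ) ^ (-b) / 2) ^ 3 := by
            rw [← h13]
            ring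
          _ ≤ 2500000 * (k : ℝ) ^ ((-1 + 3 * b) / 2) * (m : ℝ) ^ 3 := by gcongr
    filter_upwards [hA, hB] with ω h1 h2
    refine ⟨h1, fun _ => le_antisymm ?_ h2⟩
    rw [min_eq_right hc3.le] at h1
    have h3 : (-(1 / 3) : ℝ) = -1 / 3 := by norm_num
    rwa [h3] at h1
  · filter_upwards [hA] with ω h1
    exact ⟨h1, fun h => absurd h hc3⟩

end Pool.Agent.R319.SF
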