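import Pool.Agent.R319.SF.LW
import Pool.Agent.R319.SF.FO
import Pool.Agent.R319.SG.PE

open MeasureTheory ProbabilityTheory Filter Topology
open scoped ENNReal

namespace Pool.Agent.R319.SF

open Pool.Agent.R319.SG
open Pool.Agent.R319.SK (MomN)

theorem main {N D : ℕ → ℕ} (hN : ∀ k, 2 ≤ N k)
    (hlogN : Tendsto (fun k : ℕ => Real.log (N k) / Real.log k) atTop (𝓝 0))
    {c : ℝ} (hc : 0 < c)
    (hD : ∀ e : ℝ, e < c → ∀ᶠ k : ℕ in atTop, (k : ℝ) ^ e ≤ (D k : ℝ))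
    (ν : (k : ℕ) → Measure (Fin (N k) → ℂ)) [∀ k, IsProbabilityMeasure (ν k)]
    (hu : ∀ k, ∀ᵐ z ∂(ν k), ∀ i, ‖z i‖ = 1) (hM : ∀ k, MomN (N k) (D k) (ν k)) :
    ∀ᵐ x ∂(Measure.infinitePi ν),
      liminf (fun k : ℕ => ENNReal.log (gap (x k)) / ((Real.log k : ℝ) : EReal)) atTop ≤
        ((-(min c (1 / 3)) : ℝ) : EReal) ∧
      (1 / 3 < c →
        liminf (fun k : ℕ => ENNReal.log (gap (x k)) / ((Real.log k : ℝ) : EReal)) atTop =
        ((-1 / 3 : ℝ) : EReal)) := by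
  have hgm : ∀ k, Measurable (gap (N := N k)) := fun k => gap_meas
  have hind : iIndepFun (fun k (x : (k : ℕ) → Fin (N k) → ℂ) => gap (x k)) (Measure.infinitePi ν) :=
    iIndepFun_infinitePi (P := ν) (X := fun k z => gap z) hgm
  have hY : ∀ k, Measurable fun x : (k : ℕ) → Fin (N k) → ℂ => gap (x k) :=
    fun k => (hgm k).comp (measurable_pi_apply k)
  have hm : ∀ (k : ℕ) (t : ℝ), (Measure.infinitePi ν)
      {x : (k : ℕ) → Fin (N k) → ℂ | gap (x k) ≤ ENNReal.ofReal t} =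
      ν k {z | gap z ≤ ENNReal.ofReal t} := by
    intro k t
    have hs : MeasurableSet {z : Fin (N k) → ℂ | gap z ≤ ENNReal.ofReal t} :=
      measurableSet_le (hgm k) measurable_const
    rw [← (measurePreserving_eval_infinitePi ν k).measure_preimage hs.nullMeasurableSet]
    rfl
  refine forcingBC hN hlogN hc hD (Measure.infinitePi ν) (fun k x => gap (x k)) hY hind ?_ ?_
  · intro k m hm1 hmD
    rw [hm]
    exact up (hu k) (hM k) hm1 hmD
  · intro k m hm1 hmD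
    rw [hm]
    exact low (hN k) (hu k) (hM k) hm1 hmD

end Pool.Agent.R319.SF
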