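import Pool.Agent.R319.SF.SDef
import Pool.Agent.R319.SG.HU
import Pool.Agent.R319.SG.LQ

/-!
SG6-HS: moments of the geometric sums under the Haar law (helper12).
-/

set_option autoImplicit false

open MeasureTheory ProbabilityTheory Filter Topology
open scoped ENNReal

namespace Pool.Agent.R319.SF

open Pool.Agent.R319.UM (box ez mon V2 cue)
open Pool.Agent.R319.SG

lemma hs_eval {N : ℕ} (i j : Fin N) (m : ℕ) (z : Fin N → ℂ) :
    MvPolynomial.eval z (SP i j m) = ∑ l ∈ Finset.range m, z i ^ l * z j ^ (m - 1 - l) := by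
  unfold SP
  simp

lemma hs_conj_pow (t : ℝ) (k : ℕ) :
    (starRingEnd ℂ) (Complex.exp (Complex.I * t) ^ k) = Complex.exp (-(Complex.I * k * t)) := by
  rw [← Complex.exp_nat_mul, ← Complex.exp_conj]
  congr 1
  rw [map_mul, map_mul, Complex.conj_I, Complex.conj_ofReal, map_natCast]
  ring

lemma hs_norm_exp (t : ℝ) : ‖Complex.exp (Complex.I * t)‖ = 1 := by
  rw [mul_comm]
  exact Complex.norm_exp_ofReal_mul_I t

lemma hs_cont (u : ℝ) (m : ℕ) : Continuous fun t : ℝ => ∑ l ∈ Finset.range m,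
    Complex.exp (Complex.I * u) ^ l * Complex.exp (Complex.I * t) ^ (m - 1 - l) := by
  fun_prop

lemma hs_parseval (u : ℝ) (m : ℕ) : ∫ t in Set.Ioc (0 : ℝ) (2 * Real.pi),
    ‖∑ l ∈ Finset.range m, Complex.exp (Complex.I * u) ^ l *
      Complex.exp (Complex.I * t) ^ (m - 1 - l)‖ ^ 2 = 2 * Real.pi * m := by
  have key : ∫ t in Set.Ioc (0 : ℝ) (2 * Real.pi),
      ((‖∑ l ∈ Finset.range m, Complex.exp (Complex.I * u) ^ l *
      Complex.exp (Complex.I * t) ^ (m - 1 - l)‖ ^ 2 : ℝ) : ℂ) = 2 * Real.pi * m := by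
    have h1 : ∀ t : ℝ, ((‖∑ l ∈ Finset.range m, Complex.exp (Complex.I * u) ^ l *
        Complex.exp (Complex.I * t) ^ (m - 1 - l)‖ ^ 2 : ℝ) : ℂ) =
        ∑ l ∈ Finset.range m, ∑ l' ∈ Finset.range m,
          (Complex.exp (Complex.I * u) ^ l *
            (starRingEnd ℂ) (Complex.exp (Complex.I * u) ^ l')) *
          (Complex.exp (Complex.I * t) ^ (m - 1 - l) *
            Complex.exp (-(Complex.I * ((m - 1 - l' : ℕ) : ℂ) * t))) := by
      intro t
      rw [← Complex.normSq_eq_norm_sq, ← Complex.mul_conj, map_sum, Finset.sum_mul_sum]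
      refine Finset.sum_congr rfl fun l _ => Finset.sum_congr rfl fun l' _ => ?_
      rw [map_mul, hs_conj_pow t]
      ring
    simp_rw [h1]
    have hc : ∀ l l' : ℕ, IntegrableOn (fun t : ℝ => (Complex.exp (Complex.I * u) ^ l *
            (starRingEnd ℂ) (Complex.exp (Complex.I * u) ^ l')) *
          (Complex.exp (Complex.I * t) ^ (m - 1 - l) *
            Complex.exp (-(Complex.I * ((m - 1 - l' : ℕ) : ℂ) * t))))
          (Set.Ioc (0 : ℝ) (2 * Real.pi)) := by
      intro l l'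
      refine NKaux.intOn ?_
      fun_prop
    rw [integral_finsetSum _ fun l _ => integrable_finsetSum _ fun l' _ => hc l l']
    have h2 : ∀ l ∈ Finset.range m, ∫ t in Set.Ioc (0 : ℝ) (2 * Real.pi),
        ∑ l' ∈ Finset.range m, (Complex.exp (Complex.I * u) ^ l *
            (starRingEnd ℂ) (Complex.exp (Complex.I * u) ^ l')) *
          (Complex.exp (Complex.I * t) ^ (m - 1 - l) *
            Complex.exp (-(Complex.I * ((m - 1 - l' : ℕ) : ℂ) * t))) = 2 * Real.pi := by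
      intro l hl
      rw [integral_finsetSum _ fun l' _ => hc l l', Finset.sum_eq_single l]
      · rw [integral_const_mul, NKaux.ortho, if_pos rfl, Complex.mul_conj,
          Complex.normSq_eq_norm_sq, norm_pow, hs_norm_exp]
        simp
      · intro l' hl' hne
        rw [integral_const_mul, NKaux.ortho, if_neg, mul_zero]
        have := Finset.mem_range.mp hl
        have := Finset.mem_range.mp hl'
        omega
      · intro h
        exact absurd hl h
    rw [Finset.sum_congr rfl h2, Finset.sum_const, Finset.card_range, nsmul_eq_mul]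
    ring
  rw [integral_complex_ofReal] at key
  exact_mod_cast key

lemma hs_geom {z w : ℂ} (hz : ‖z‖ = 1) (hw : ‖w‖ = 1) (m : ℕ) :
    ‖∑ l ∈ Finset.range m, z ^ l * w ^ (m - 1 - l)‖ * ‖w - z‖ ≤ 2 := by
  have h := (Commute.all z w).geom_sum₂_mul m
  rw [norm_sub_rev, ← norm_mul, h]
  refine (norm_sub_le _ _).trans ?_
  rw [norm_pow, norm_pow, hz, hw]
  norm_num

lemma hs_slice {N : ℕ} {f g : (Fin N → ℝ) → ℝ≥0∞} (hf : Measurable f) (hg : Measurable g)
    (j : Fin N) {C : ℝ≥0∞}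
    (h : ∀ θ : Fin N → ℝ, ∫⁻ t in Set.Ioc (0 : ℝ) (2 * Real.pi), g (Function.update θ j t) ≤
        C * ∫⁻ t in Set.Ioc (0 : ℝ) (2 * Real.pi), f (Function.update θ j t)) :
    ∫⁻ θ in box N, g θ ≤ C * ∫⁻ θ in box N, f θ := by
  have hbox : (volume : Measure (Fin N → ℝ)).restrict (box N) =
      Measure.pi fun _ : Fin N => (volume : Measure ℝ).restrict (Set.Ioc 0 (2 * Real.pi)) := by
    unfold box
    rw [volume_pi, Measure.restrict_pi_pi]
  rw [← lintegral_const_mul _ hf, hbox]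
  refine lintegral_le_of_lmarginal_le {j} hg (hf.const_mul C) ?_
  rw [lmarginal_singleton, lmarginal_singleton]
  intro θ
  have hm : Measurable fun t : ℝ => f (Function.update θ j t) :=
    hf.comp (measurable_update θ)
  change ∫⁻ t in Set.Ioc (0 : ℝ) (2 * Real.pi), g (Function.update θ j t) ≤
    ∫⁻ t in Set.Ioc (0 : ℝ) (2 * Real.pi), C * f (Function.update θ j t)
  rw [lintegral_const_mul _ hm]
  exact h θ

lemma hs_one {N : ℕ} {i j : Fin N} (hij : i < j) (m : ℕ) {F : (Fin N → ℝ) → ℝ}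
    (hF : Continuous F) {c : ℝ} (hc : 0 ≤ c)
    (h : ∀ θ, F θ * ‖ez θ j - ez θ i‖ ^ 2 ≤
      c * ‖∑ l ∈ Finset.range m, ez θ i ^ l * ez θ j ^ (m - 1 - l)‖ ^ 2) :
    ∫⁻ θ in box N, ENNReal.ofReal (F θ * V2 (ez θ)) ≤
      ENNReal.ofReal (c * (6 * (4 * N + 1) ^ 3) * (2 * Real.pi * m)) *
        ∫⁻ θ in box N, ENNReal.ofReal (V2 (ez θ)) := by
  have hfm : Measurable fun θ : Fin N → ℝ => ENNReal.ofReal (V2 (ez θ)) :=
    V2_cont.measurable.ennreal_ofReal
  have hgm : Measurable fun θ : Fin N → ℝ => ENNReal.ofReal (F θ * V2 (ez θ)) :=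
    (hF.mul V2_cont).measurable.ennreal_ofReal
  refine hs_slice hfm hgm j fun θ => ?_
  obtain ⟨p, hp, hpe⟩ := HUx.one_var hij θ
  have hcT : Continuous fun t : ℝ =>
      ‖Complex.exp (Complex.I * t) - Complex.exp (Complex.I * θ i)‖ := by fun_prop
  have hcp : Continuous fun t : ℝ => ‖p.eval (Complex.exp (Complex.I * t))‖ *
      ‖Complex.exp (Complex.I * t) - Complex.exp (Complex.I * θ i)‖ ^ 2 := by
    have h1 : Continuous fun z : ℂ => p.eval z := p.continuous
    have h2 : Continuous fun t : ℝ => Complex.exp (Complex.I * t) := by fun_prop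
    exact (h1.comp h2).norm.mul (hcT.pow 2)
  have hint : IntegrableOn (fun t : ℝ => ‖p.eval (Complex.exp (Complex.I * t))‖ *
      ‖Complex.exp (Complex.I * t) - Complex.exp (Complex.I * θ i)‖ ^ 2)
      (Set.Ioc (0 : ℝ) (2 * Real.pi)) :=
    (hcp.continuousOn.integrableOn_compact isCompact_Icc).mono_set Set.Ioc_subset_Icc_self
  set J := ∫ t in Set.Ioc (0 : ℝ) (2 * Real.pi), ‖p.eval (Complex.exp (Complex.I * t))‖ *
      ‖Complex.exp (Complex.I * t) - Complex.exp (Complex.I * θ i)‖ ^ 2 with hJ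
  have hJ0 : 0 ≤ J := integral_nonneg fun t => by positivity
  have hR : ∫⁻ t in Set.Ioc (0 : ℝ) (2 * Real.pi),
      ENNReal.ofReal (V2 (ez (Function.update θ j t))) = ENNReal.ofReal J := by
    rw [hJ, ofReal_integral_eq_lintegral_ofReal hint (Eventually.of_forall fun t => by positivity)]
    refine lintegral_congr fun t => ?_
    rw [hpe]
  have hptw : ∀ t : ℝ, F (Function.update θ j t) * V2 (ez (Function.update θ j t)) ≤
      (c * (6 * (4 * N + 1) ^ 3) * J) * ‖∑ l ∈ Finset.range m,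
        Complex.exp (Complex.I * θ i) ^ l * Complex.exp (Complex.I * t) ^ (m - 1 - l)‖ ^ 2 := by
    intro t
    have e1 : ez (Function.update θ j t) i = Complex.exp (Complex.I * θ i) := by
      unfold ez
      rw [Function.update_of_ne hij.ne]
    have e2 : ez (Function.update θ j t) j = Complex.exp (Complex.I * t) := by
      unfold ez
      rw [Function.update_self]
    have h1 := h (Function.update θ j t)
    rw [e1, e2] at h1
    have h3 := nikw (4 * N) p hp t (θ i)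
    push_cast at h3
    rw [← hJ] at h3
    rw [hpe]
    calc F (Function.update θ j t) * (‖p.eval (Complex.exp (Complex.I * t))‖ *
          ‖Complex.exp (Complex.I * t) - Complex.exp (Complex.I * θ i)‖ ^ 2)
        = (F (Function.update θ j t) *
          ‖Complex.exp (Complex.I * t) - Complex.exp (Complex.I * θ i)‖ ^ 2) *
            ‖p.eval (Complex.exp (Complex.I * t))‖ := by ring
      _ ≤ (c * ‖∑ l ∈ Finset.range m, Complex.exp (Complex.I * θ i) ^ l *
            Complex.exp (Complex.I * t) ^ (m - 1 - l)‖ ^ 2) *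
            ‖p.eval (Complex.exp (Complex.I * t))‖ :=
          mul_le_mul_of_nonneg_right h1 (norm_nonneg _)
      _ ≤ (c * ‖∑ l ∈ Finset.range m, Complex.exp (Complex.I * θ i) ^ l *
            Complex.exp (Complex.I * t) ^ (m - 1 - l)‖ ^ 2) *
            (6 * (4 * N + 1) ^ 3 * J) :=
          mul_le_mul_of_nonneg_left h3 (by positivity)
      _ = _ := by ring
  change ∫⁻ t in Set.Ioc (0 : ℝ) (2 * Real.pi),
      ENNReal.ofReal (F (Function.update θ j t) * V2 (ez (Function.update θ j t))) ≤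
      ENNReal.ofReal (c * (6 * (4 * N + 1) ^ 3) * (2 * Real.pi * m)) *
        ∫⁻ t in Set.Ioc (0 : ℝ) (2 * Real.pi),
        ENNReal.ofReal (V2 (ez (Function.update θ j t)))
  rw [hR, ← ENNReal.ofReal_mul (by positivity)]
  refine (lintegral_mono fun t => ENNReal.ofReal_le_ofReal (hptw t)).trans ?_
  have hint2 : IntegrableOn (fun t : ℝ => (c * (6 * (4 * N + 1) ^ 3) * J) *
      ‖∑ l ∈ Finset.range m,
        Complex.exp (Complex.I * θ i) ^ l * Complex.exp (Complex.I * t) ^ (m - 1 - l)‖ ^ 2)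
      (Set.Ioc (0 : ℝ) (2 * Real.pi)) :=
    NKaux.intOn (continuous_const.mul ((hs_cont (θ i) m).norm.pow 2))
  rw [← ofReal_integral_eq_lintegral_ofReal hint2
    (Eventually.of_forall fun t => by positivity), integral_const_mul, hs_parseval]
  refine ENNReal.ofReal_le_ofReal (le_of_eq ?_)
  ring

lemma hs_ez_cont {N : ℕ} (a : Fin N) : Continuous fun θ : Fin N → ℝ => ez θ a := by
  unfold ez
  fun_prop

lemma hs_muN {N : ℕ} {F : (Fin N → ℝ) → ℝ} (hF : Continuous F) (hF0 : ∀ θ, 0 ≤ F θ) {C : ℝ}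
    (h : ∫⁻ θ in box N, ENNReal.ofReal (F θ * V2 (ez θ)) ≤
      ENNReal.ofReal C * ∫⁻ θ in box N, ENNReal.ofReal (V2 (ez θ))) :
    ∫⁻ θ, ENNReal.ofReal (F θ) ∂(muN N) ≤ ENNReal.ofReal C := by
  have hfm : Measurable fun θ : Fin N → ℝ => ENNReal.ofReal (V2 (ez θ) / nc N) :=
    (V2_cont.measurable.div_const _).ennreal_ofReal
  have hgm : Measurable fun θ : Fin N → ℝ => ENNReal.ofReal (F θ * V2 (ez θ)) :=
    (hF.mul V2_cont).measurable.ennreal_ofReal
  have hnc : 0 < nc N := by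
    unfold nc
    positivity
  unfold muN
  rw [lintegral_withDensity_eq_lintegral_mul _ hfm hF.measurable.ennreal_ofReal]
  have h1 : ∀ θ : Fin N → ℝ, ((fun θ : Fin N → ℝ => ENNReal.ofReal (V2 (ez θ) / nc N)) *
      fun θ => ENNReal.ofReal (F θ)) θ =
      ENNReal.ofReal (F θ * V2 (ez θ)) * ENNReal.ofReal (nc N)⁻¹ := by
    intro θ
    rw [Pi.mul_apply, ← ENNReal.ofReal_mul (div_nonneg (V2_nonneg _) hnc.le),
      ← ENNReal.ofReal_mul (mul_nonneg (hF0 θ) (V2_nonneg _))]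
    congr 1
    rw [div_eq_mul_inv]
    ring
  simp_rw [h1]
  rw [lintegral_mul_const _ hgm]
  refine (mul_le_mul_left h _).trans ?_
  rw [lq_lintV2, mul_assoc, ← ENNReal.ofReal_mul (by positivity)]
  have h2 : (N.factorial * (2 * Real.pi) ^ N : ℝ) * (nc N)⁻¹ = 1 := by
    have h3 : (N.factorial * (2 * Real.pi) ^ N : ℝ) = nc N := by
      unfold nc
      ring
    rw [h3, mul_inv_cancel₀ hnc.ne']
  rw [h2, ENNReal.ofReal_one, mul_one]

theorem haarS {N : ℕ} {i j : Fin N} (hij : i < j) {m : ℕ} (_hm : 1 ≤ m) :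
    ∫⁻ θ, ENNReal.ofReal (‖MvPolynomial.eval (ez θ) (SP i j m)‖ ^ 4) ∂(muN N) ≤
      ENNReal.ofReal (151 * (4 * N + 1) ^ 3 * m) ∧
    ∫⁻ θ, ENNReal.ofReal (‖MvPolynomial.eval (ez θ) (SP i j m)‖ ^ 6 *
      ‖ez θ j - ez θ i‖ ^ 2) ∂(muN N) ≤ ENNReal.ofReal (604 * (4 * N + 1) ^ 3 * m) := by
  have hpi := Real.pi_lt_d4
  simp_rw [hs_eval]
  have hSc : Continuous fun θ : Fin N → ℝ =>
      ∑ l ∈ Finset.range m, ez θ i ^ l * ez θ j ^ (m - 1 - l) := by
    have h1 := hs_ez_cont (N := N) i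
    have h2 := hs_ez_cont (N := N) j
    exact continuous_finsetSum _ fun l _ => (h1.pow l).mul (h2.pow (m - 1 - l))
  have hdc : Continuous fun θ : Fin N → ℝ => ‖ez θ j - ez θ i‖ :=
    ((hs_ez_cont j).sub (hs_ez_cont i)).norm
  have hSd : ∀ θ : Fin N → ℝ, ‖∑ l ∈ Finset.range m, ez θ i ^ l * ez θ j ^ (m - 1 - l)‖ *
      ‖ez θ j - ez θ i‖ ≤ 2 := fun θ => hs_geom (hs_norm_exp _) (hs_norm_exp _) m
  constructor
  · refine (hs_muN (hSc.norm.pow 4) (fun θ => pow_nonneg (norm_nonneg _) 4)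
      (hs_one hij m (hSc.norm.pow 4) (c := 4) (by norm_num) fun θ => ?_)).trans ?_
    · have h1 := hSd θ
      set S := ‖∑ l ∈ Finset.range m, ez θ i ^ l * ez θ j ^ (m - 1 - l)‖
      set d := ‖ez θ j - ez θ i‖
      have h2 : (S * d) ^ 2 ≤ 2 ^ 2 := by
        have : 0 ≤ S * d := by positivity
        gcongr
      calc S ^ 4 * d ^ 2 = (S * d) ^ 2 * S ^ 2 := by ring
        _ ≤ 2 ^ 2 * S ^ 2 := mul_le_mul_of_nonneg_right h2 (by positivity)
        _ = 4 * S ^ 2 := by ring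
    · refine ENNReal.ofReal_le_ofReal ?_
      have h3 : 0 ≤ (4 * (N : ℝ) + 1) ^ 3 * m := by positivity
      calc (4 * (6 * (4 * (N : ℝ) + 1) ^ 3) * (2 * Real.pi * m) : ℝ)
          = (48 * Real.pi) * ((4 * (N : ℝ) + 1) ^ 3 * m) := by ring
        _ ≤ 151 * ((4 * (N : ℝ) + 1) ^ 3 * m) :=
            mul_le_mul_of_nonneg_right (by linarith) h3
        _ = _ := by ring
  · refine (hs_muN ((hSc.norm.pow 6).mul (hdc.pow 2))
      (fun θ => mul_nonneg (pow_nonneg (norm_nonneg _) 6) (pow_nonneg (norm_nonneg _) 2))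
      (hs_one hij m ((hSc.norm.pow 6).mul (hdc.pow 2)) (c := 16) (by norm_num)
        fun θ => ?_)).trans ?_
    · have h1 := hSd θ
      set S := ‖∑ l ∈ Finset.range m, ez θ i ^ l * ez θ j ^ (m - 1 - l)‖
      set d := ‖ez θ j - ez θ i‖
      have h2 : (S * d) ^ 4 ≤ 2 ^ 4 := by
        have : 0 ≤ S * d := by positivity
        gcongr
      calc S ^ 6 * d ^ 2 * d ^ 2 = (S * d) ^ 4 * S ^ 2 := by ring
        _ ≤ 2 ^ 4 * S ^ 2 := mul_le_mul_of_nonneg_right h2 (by positivity)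
        _ = 16 * S ^ 2 := by ring
    · refine ENNReal.ofReal_le_ofReal ?_
      have h3 : 0 ≤ (4 * (N : ℝ) + 1) ^ 3 * m := by positivity
      calc (16 * (6 * (4 * (N : ℝ) + 1) ^ 3) * (2 * Real.pi * m) : ℝ)
          = (192 * Real.pi) * ((4 * (N : ℝ) + 1) ^ 3 * m) := by ring
        _ ≤ 604 * ((4 * (N : ℝ) + 1) ^ 3 * m) :=
            mul_le_mul_of_nonneg_right (by linarith) h3
        _ = _ := by ring

end Pool.Agent.R319.SF
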