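import Pool.Agent.R319.SF.UP
import Pool.Agent.R319.SG.CO

open MeasureTheory ProbabilityTheory Filter Topology
open scoped ENNReal

namespace Pool.Agent.R319.SF

open Pool.Agent.R319.UM (box ez mon V2 cue)
open Pool.Agent.R319.SG
open Pool.Agent.R319.SK (MomN)

variable {N D : ℕ}

/-- Haar mass of configurations with the pair `(0, 1)` close -/
lemma haar01 {M : ℕ} {t : ℝ} (ht : 0 ≤ t) (ht1 : t ≤ 1) :
    ENNReal.ofReal (t ^ 3 / (200 * ((M + 2 : ℕ) : ℝ) ^ 2)) ≤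
      (muN (M + 2)) {θ | ‖ez θ 1 - ez θ 0‖ ≤ t} := by
  set S : Set (Fin (M + 2) → ℝ) := {θ | ‖ez θ 1 - ez θ 0‖ ≤ t} with hS
  have hSm : MeasurableSet S := (isClosed_le (dist_cont 1 0) continuous_const).measurableSet
  unfold muN
  rw [withDensity_apply _ hSm, ← lintegral_indicator hSm]
  have h1 : ∀ θ : Fin (M + 2) → ℝ,
      S.indicator (fun θ => ENNReal.ofReal (V2 (ez θ) / nc (M + 2))) θ =
      ENNReal.ofReal (1 / nc (M + 2)) * S.indicator (fun θ => ENNReal.ofReal (V2 (ez θ))) θ := by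
    intro θ
    by_cases h : θ ∈ S
    · rw [Set.indicator_of_mem h, Set.indicator_of_mem h,
        ← ENNReal.ofReal_mul (by have := nc_pos (N := M + 2); positivity)]
      congr 1
      ring
    · rw [Set.indicator_of_notMem h, Set.indicator_of_notMem h, mul_zero]
  simp only [h1]
  rw [lintegral_const_mul' _ _ ENNReal.ofReal_ne_top]
  refine le_trans ?_ (mul_le_mul' le_rfl (hl_main ht ht1))
  have hnc := nc_pos (N := M + 2)
  rw [← ENNReal.ofReal_mul (by positivity)]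
  apply ENNReal.ofReal_le_ofReal
  unfold nc
  have hfac : ((M + 2).factorial : ℝ) = (M + 2) * ((M + 1) * M.factorial) := by
    rw [Nat.factorial_succ, Nat.factorial_succ]
    push_cast
    ring
  rw [hfac]
  have hMf : (0 : ℝ) < M.factorial := by exact_mod_cast M.factorial_pos
  have hpi := Real.pi_pos
  have hpi4 := Real.pi_lt_d2
  have e1 : 1 / ((M + 2) * ((M + 1) * (M.factorial : ℝ)) * (2 * Real.pi) ^ (M + 2)) *
      (t ^ 3 / 12 * ((2 * Real.pi) ^ (M + 1) * M.factorial)) =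
      t ^ 3 / (24 * Real.pi * ((M + 2) * (M + 1))) := by
    rw [pow_succ (2 * Real.pi) (M + 1)]
    field_simp
    ring
  rw [e1]
  apply div_le_div_of_nonneg_left (by positivity) (by positivity)
  push_cast
  have hM : (0 : ℝ) ≤ M := Nat.cast_nonneg M
  nlinarith [mul_nonneg hM hM, mul_nonneg (mul_nonneg hM hM) hpi.le, mul_nonneg hM hpi.le,
    mul_nonneg (mul_nonneg hM hM) (sub_nonneg.2 hpi4.le), mul_nonneg hM (sub_nonneg.2 hpi4.le)]

/-- lower bound for the smallest gap -/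
theorem low {ν : Measure (Fin N → ℂ)} [IsProbabilityMeasure ν] (hN : 2 ≤ N)
    (hu : ∀ᵐ z ∂ν, ∀ i, ‖z i‖ = 1)
    (hM : MomN N D ν) {m : ℕ} (hm : 1 ≤ m) (hD : 3 * m ≤ D) :
    ENNReal.ofReal (1 / (25600 * (N : ℝ) ^ 2 * (m : ℝ) ^ 3)) ≤
      ν {z | gap z ≤ ENNReal.ofReal (4000 * (N : ℝ) * (4 * (N : ℝ) + 1) ^ 2 / m)} := by
  obtain ⟨M, rfl⟩ : ∃ M, N = M + 2 := ⟨N - 2, by omega⟩
  have hm0 : (0 : ℝ) < m := by exact_mod_cast hm
  have hm1 : (1 : ℝ) ≤ m := by exact_mod_cast hm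
  set NR : ℝ := ((M + 2 : ℕ) : ℝ) with hNR
  have hNR2 : 2 ≤ NR := by rw [hNR]; exact_mod_cast hN
  set τ : ℝ := 4000 * NR * (4 * NR + 1) ^ 2 / m with hτ
  have hτ0 : 0 < τ := by positivity
  have h01 : (0 : Fin (M + 2)) < 1 := by simp
  set S := SP (0 : Fin (M + 2)) 1 m with hS
  have hdeg : ∀ v, S.degreeOf v ≤ m - 1 := fun v => SP_deg 0 1 v m
  -- the moments
  have hmom1 := mom_sq hM (S ^ 3) (fun v => (MvPolynomial.degreeOf_pow_le _ _ _).trans (by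
    have := hdeg v
    omega))
  simp only [map_pow, norm_pow, ← pow_mul] at hmom1
  norm_num at hmom1
  have hmom2 := mom_sq hM (S ^ 3 * (MvPolynomial.X 1 - MvPolynomial.X 0)) (fun v => by
    refine (MvPolynomial.degreeOf_mul_le _ _ _).trans ?_
    have h1 : MvPolynomial.degreeOf v (S ^ 3) ≤ 3 * (m - 1) :=
      (MvPolynomial.degreeOf_pow_le _ _ _).trans (Nat.mul_le_mul_left 3 (hdeg v))
    have h2 : MvPolynomial.degreeOf v
        (MvPolynomial.X 1 - MvPolynomial.X 0 : MvPolynomial (Fin (M + 2)) ℂ) ≤ 1 := by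
      refine (MvPolynomial.degreeOf_sub_le _ _ _).trans (max_le ?_ ?_)
      · rw [MvPolynomial.degreeOf_X]; split_ifs <;> omega
      · rw [MvPolynomial.degreeOf_X]; split_ifs <;> omega
    omega)
  simp only [map_mul, map_pow, map_sub, MvPolynomial.eval_X, norm_mul, norm_pow, mul_pow,
    ← pow_mul] at hmom2
  norm_num at hmom2
  have hH := (haarR h01 hm).2
  rw [← hS] at hH
  rw [← hmom2] at hH
  -- Haar lower bound
  have hprob := muN_prob (cue_norm (M + 2))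
  have hcS : Continuous fun θ : Fin (M + 2) → ℝ => ‖MvPolynomial.eval (ez θ) S‖ :=
    (pc _).comp ez_cont
  have hA : MeasurableSet {θ : Fin (M + 2) → ℝ | ‖ez θ 1 - ez θ 0‖ ≤ 1 / m} :=
    (isClosed_le (dist_cont 1 0) continuous_const).measurableSet
  have hIH : Integrable (fun θ : Fin (M + 2) → ℝ => ‖MvPolynomial.eval (ez θ) S‖ ^ 6)
      (muN (M + 2)) := by
    refine Integrable.of_bound (C := (m : ℝ) ^ 6) (hcS.pow 6).aestronglyMeasurable
      (Eventually.of_forall fun θ => ?_)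
    rw [Real.norm_eq_abs, abs_of_nonneg (by positivity)]
    exact pow_le_pow_left₀ (norm_nonneg _) (SP_le (ez_unit θ) 0 1 m) 6
  have hHL : ((m : ℝ) / 2) ^ 6 * (muN (M + 2)).real {θ | ‖ez θ 1 - ez θ 0‖ ≤ 1 / m} ≤
      ∫ θ, ‖MvPolynomial.eval (ez θ) S‖ ^ 6 ∂(muN (M + 2)) := by
    have h2 : ∫ θ, ({θ : Fin (M + 2) → ℝ | ‖ez θ 1 - ez θ 0‖ ≤ 1 / m}.indicator
        (fun _ => ((m : ℝ) / 2) ^ 6)) θ ∂(muN (M + 2)) = ((m : ℝ) / 2) ^ 6 *
          (muN (M + 2)).real {θ | ‖ez θ 1 - ez θ 0‖ ≤ 1 / m} := by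
      rw [integral_indicator hA, setIntegral_const, smul_eq_mul, mul_comm]
    rw [← h2]
    refine integral_mono_ae ((integrable_const _).indicator hA) hIH
      (Eventually.of_forall fun θ => ?_)
    by_cases hzA : θ ∈ {θ : Fin (M + 2) → ℝ | ‖ez θ 1 - ez θ 0‖ ≤ 1 / m}
    · simp only [Set.indicator_of_mem hzA]
      exact pow_le_pow_left₀ (by positivity) (SP_ge (ez_unit θ) hm hzA) 6
    · simp only [Set.indicator_of_notMem hzA]
      positivity
  have hP : (1 / (m : ℝ)) ^ 3 / (200 * NR ^ 2) ≤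
      (muN (M + 2)).real {θ | ‖ez θ 1 - ez θ 0‖ ≤ 1 / m} := by
    have h3 := haar01 (M := M) (t := 1 / m) (by positivity) (by
      rw [div_le_one hm0]; exact hm1)
    rw [← ofReal_measureReal] at h3
    exact (ENNReal.ofReal_le_ofReal_iff measureReal_nonneg).1 h3
  have hE6 : (m : ℝ) ^ 3 / (12800 * NR ^ 2) ≤ ∫ z, ‖MvPolynomial.eval z S‖ ^ 6 ∂ν := by
    rw [hmom1]
    refine le_trans ?_ hHL
    refine le_trans (le_of_eq ?_) (mul_le_mul_of_nonneg_left hP (by positivity))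
    field_simp
    ring
  -- the test function
  have hcz : Continuous fun z : Fin (M + 2) → ℂ => ‖z 1 - z 0‖ :=
    ((continuous_apply 1).sub (continuous_apply 0)).norm
  have hB : MeasurableSet {z : Fin (M + 2) → ℂ | ‖z 1 - z 0‖ ≤ τ} :=
    (isClosed_le hcz continuous_const).measurableSet
  have hI6 : Integrable (fun z : Fin (M + 2) → ℂ => ‖MvPolynomial.eval z S‖ ^ 6) ν := by
    refine Integrable.of_bound (C := (m : ℝ) ^ 6) ((pc S).pow 6).aestronglyMeasurable ?_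
    filter_upwards [hu] with z hz
    rw [Real.norm_eq_abs, abs_of_nonneg (by positivity)]
    exact pow_le_pow_left₀ (norm_nonneg _) (SP_le hz 0 1 m) 6
  have hI62 : Integrable (fun z : Fin (M + 2) → ℂ => ‖MvPolynomial.eval z S‖ ^ 6 *
      ‖z 1 - z 0‖ ^ 2) ν := by
    refine Integrable.of_bound (C := (m : ℝ) ^ 6 * 2 ^ 2)
      (((pc S).pow 6).mul (hcz.pow 2)).aestronglyMeasurable ?_
    filter_upwards [hu] with z hz
    rw [Real.norm_eq_abs, abs_of_nonneg (by positivity)]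
    refine mul_le_mul (pow_le_pow_left₀ (norm_nonneg _) (SP_le hz 0 1 m) 6)
      (pow_le_pow_left₀ (norm_nonneg _) ?_ 2) (by positivity) (by positivity)
    refine (norm_sub_le _ _).trans ?_
    rw [hz, hz]
    norm_num
  have hkey : τ ^ 2 * ∫ z, ‖MvPolynomial.eval z S‖ ^ 6 ∂ν -
      ∫ z, ‖MvPolynomial.eval z S‖ ^ 6 * ‖z 1 - z 0‖ ^ 2 ∂ν ≤
      τ ^ 2 * (m : ℝ) ^ 6 * ν.real {z | ‖z 1 - z 0‖ ≤ τ} := by
    rw [← integral_const_mul, ← integral_sub (hI6.const_mul _) hI62]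
    have h2 : ∫ z, ({z : Fin (M + 2) → ℂ | ‖z 1 - z 0‖ ≤ τ}.indicator
        (fun _ => τ ^ 2 * (m : ℝ) ^ 6)) z ∂ν = τ ^ 2 * (m : ℝ) ^ 6 *
          ν.real {z | ‖z 1 - z 0‖ ≤ τ} := by
      rw [integral_indicator hB, setIntegral_const, smul_eq_mul, mul_comm]
    rw [← h2]
    refine integral_mono_ae ((hI6.const_mul _).sub hI62) ((integrable_const _).indicator hB) ?_
    filter_upwards [hu] with z hz
    have hs6 : ‖MvPolynomial.eval z S‖ ^ 6 ≤ (m : ℝ) ^ 6 :=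
      pow_le_pow_left₀ (norm_nonneg _) (SP_le hz 0 1 m) 6
    by_cases hzA : z ∈ {z : Fin (M + 2) → ℂ | ‖z 1 - z 0‖ ≤ τ}
    · simp only [Set.indicator_of_mem hzA]
      have h5 : 0 ≤ ‖MvPolynomial.eval z S‖ ^ 6 * ‖z 1 - z 0‖ ^ 2 := by positivity
      have h6 : τ ^ 2 * ‖MvPolynomial.eval z S‖ ^ 6 ≤ τ ^ 2 * (m : ℝ) ^ 6 :=
        mul_le_mul_of_nonneg_left hs6 (by positivity)
      linarith
    · simp only [Set.indicator_of_notMem hzA]
      have h7 : τ < ‖z 1 - z 0‖ := not_le.1 hzA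
      have h8 : τ ^ 2 ≤ ‖z 1 - z 0‖ ^ 2 := pow_le_pow_left₀ hτ0.le h7.le 2
      have h9 : 0 ≤ ‖MvPolynomial.eval z S‖ ^ 6 := by positivity
      nlinarith
  have hsub : {z : Fin (M + 2) → ℂ | ‖z 1 - z 0‖ ≤ τ} ⊆ {z | gap z ≤ ENNReal.ofReal τ} := by
    intro z hz
    change gap z ≤ ENNReal.ofReal τ
    unfold gap
    refine (iInf_le _ 1).trans ((iInf_le _ 0).trans ((iInf_le _ (by simp)).trans ?_))
    exact ENNReal.ofReal_le_ofReal hz
  refine le_trans ?_ (measure_mono hsub)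
  rw [← ofReal_measureReal]
  apply ENNReal.ofReal_le_ofReal
  set E6 : ℝ := ∫ z, ‖MvPolynomial.eval z S‖ ^ 6 ∂ν with hE6d
  set E62 : ℝ := ∫ z, ‖MvPolynomial.eval z S‖ ^ 6 * ‖z 1 - z 0‖ ^ 2 ∂ν with hE62d
  set p : ℝ := ν.real {z : Fin (M + 2) → ℂ | ‖z 1 - z 0‖ ≤ τ} with hp
  have hτ2 : 2 * E62 ≤ τ ^ 2 * E6 := by
    have h10 : τ ^ 2 * ((m : ℝ) ^ 3 / (12800 * NR ^ 2)) ≤ τ ^ 2 * E6 :=
      mul_le_mul_of_nonneg_left hE6 (by positivity)
    have h11 : τ ^ 2 * ((m : ℝ) ^ 3 / (12800 * NR ^ 2)) = 1250 * (4 * NR + 1) ^ 4 * m := by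
      rw [hτ]
      field_simp
      ring
    have h12 : 2 * E62 ≤ 1208 * (4 * NR + 1) ^ 3 * m := by linarith
    have h13 : 1208 * (4 * NR + 1) ^ 3 * m ≤ 1250 * (4 * NR + 1) ^ 4 * m := by
      have h14 : (1 : ℝ) ≤ 4 * NR + 1 := by linarith
      have h15 : (4 * NR + 1) ^ 3 ≤ (4 * NR + 1) ^ 4 := pow_le_pow_right₀ h14 (by norm_num)
      have h16 : 0 ≤ (4 * NR + 1) ^ 3 := by positivity
      gcongr ?_ * m
      linarith
    linarith
  have h17 : τ ^ 2 * E6 / 2 ≤ τ ^ 2 * ((m : ℝ) ^ 6 * p) := by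
    have : τ ^ 2 * (m : ℝ) ^ 6 * p = τ ^ 2 * ((m : ℝ) ^ 6 * p) := by ring
    linarith
  have h18 : E6 / 2 ≤ (m : ℝ) ^ 6 * p := by
    have h19 : τ ^ 2 * (E6 / 2) ≤ τ ^ 2 * ((m : ℝ) ^ 6 * p) := by linarith
    exact le_of_mul_le_mul_left h19 (by positivity)
  have h20 : (m : ℝ) ^ 6 * (1 / (25600 * NR ^ 2 * (m : ℝ) ^ 3)) ≤ (m : ℝ) ^ 6 * p := by
    refine le_trans (le_of_eq ?_) ((div_le_div_of_nonneg_right hE6 (by norm_num :
      (0 : ℝ) ≤ 2)).trans h18)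
    field_simp
    ring
  exact le_of_mul_le_mul_left h20 (by positivity)

end Pool.Agent.R319.SF
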