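import Pool.Agent.R319.SG.Defs3

open MeasureTheory ProbabilityTheory Filter Topology
open scoped ENNReal

namespace Pool.Agent.R319.SF

open Pool.Agent.R319.UM (box ez mon V2 cue)
open Pool.Agent.R319.SG

/-- the sum `∑ z_i^l z_j^(m-1-l)` -/
noncomputable def SP {N : ℕ} (i j : Fin N) (m : ℕ) : MvPolynomial (Fin N) ℂ :=
  ∑ l ∈ Finset.range m, MvPolynomial.X i ^ l * MvPolynomial.X j ^ (m - 1 - l)

end Pool.Agent.R319.SF
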