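import Pool.Agent.R319.SF.SDef
import Pool.Agent.R319.SF.HS
import Pool.Agent.R319.SK.K6
import Pool.Agent.R319.SG.HL

open MeasureTheory ProbabilityTheory Filter Topology
open scoped ENNReal

namespace Pool.Agent.R319.SF

open Pool.Agent.R319.UM (box ez mon V2 cue)
open Pool.Agent.R319.SG
open Pool.Agent.R319.SK (MomN)

variable {N D : ℕ}

lemma SP_deg (i j v : Fin N) (m : ℕ) : (SP i j m).degreeOf v ≤ m - 1 := by
  unfold SP
  refine (MvPolynomial.degreeOf_sum_le _ _ _).trans (Finset.sup_le fun l hl => ?_)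
  have hl' := Finset.mem_range.1 hl
  refine (MvPolynomial.degreeOf_mul_le _ _ _).trans ?_
  have h1 : MvPolynomial.degreeOf v ((MvPolynomial.X i : MvPolynomial (Fin N) ℂ) ^ l) ≤ l := by
    refine (MvPolynomial.degreeOf_pow_le _ _ _).trans ?_
    rw [MvPolynomial.degreeOf_X]
    split_ifs <;> omega
  have h2 : MvPolynomial.degreeOf v ((MvPolynomial.X j : MvPolynomial (Fin N) ℂ) ^ (m - 1 - l)) ≤
      m - 1 - l := by
    refine (MvPolynomial.degreeOf_pow_le _ _ _).trans ?_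
    rw [MvPolynomial.degreeOf_X]
    split_ifs <;> omega
  omega

lemma pow_sub_le {a b : ℂ} (ha : ‖a‖ = 1) (hb : ‖b‖ = 1) (l : ℕ) :
    ‖a ^ l - b ^ l‖ ≤ l * ‖a - b‖ := by
  induction l with
  | zero => simp
  | succ l ih =>
    have e : a ^ (l + 1) - b ^ (l + 1) = a * (a ^ l - b ^ l) + (a - b) * b ^ l := by ring
    rw [e]
    refine (norm_add_le _ _).trans ?_
    rw [norm_mul, norm_mul, ha, norm_pow, hb, one_pow, one_mul, mul_one]
    push_cast
    linarith

lemma SP_le {z : Fin N → ℂ} (hz : ∀ i, ‖z i‖ = 1) (i j : Fin N) (m : ℕ) :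
    ‖MvPolynomial.eval z (SP i j m)‖ ≤ m := by
  unfold SP
  rw [map_sum]
  refine (norm_sum_le _ _).trans ?_
  calc ∑ l ∈ Finset.range m, ‖MvPolynomial.eval z (MvPolynomial.X i ^ l * MvPolynomial.X j ^ (m - 1 - l))‖
      = ∑ l ∈ Finset.range m, (1 : ℝ) := by
        refine Finset.sum_congr rfl fun l _ => ?_
        rw [map_mul, map_pow, map_pow, MvPolynomial.eval_X, MvPolynomial.eval_X, norm_mul,
          norm_pow, norm_pow, hz, hz]
        simp
    _ ≤ m := by simp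

lemma SP_ge {z : Fin N → ℂ} (hz : ∀ i, ‖z i‖ = 1) {i j : Fin N} {m : ℕ} (hm : 1 ≤ m)
    (h : ‖z j - z i‖ ≤ 1 / m) : (m : ℝ) / 2 ≤ ‖MvPolynomial.eval z (SP i j m)‖ := by
  have hm0 : (0 : ℝ) < m := by exact_mod_cast hm
  have e : MvPolynomial.eval z (SP i j m) = (m : ℂ) * z j ^ (m - 1) -
      ∑ l ∈ Finset.range m, (z j ^ l - z i ^ l) * z j ^ (m - 1 - l) := by
    unfold SP
    rw [map_sum]
    have : ∑ l ∈ Finset.range m, (z j ^ l - z i ^ l) * z j ^ (m - 1 - l) =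
        ∑ l ∈ Finset.range m, (z j ^ (m - 1) - z i ^ l * z j ^ (m - 1 - l)) := by
      refine Finset.sum_congr rfl fun l hl => ?_
      have hl' := Finset.mem_range.1 hl
      rw [sub_mul, ← pow_add]
      congr 3
      omega
    rw [this, Finset.sum_sub_distrib, Finset.sum_const, Finset.card_range, nsmul_eq_mul]
    simp
  have h1 : ‖∑ l ∈ Finset.range m, (z j ^ l - z i ^ l) * z j ^ (m - 1 - l)‖ ≤ (m : ℝ) / 2 := by
    refine (norm_sum_le _ _).trans ?_
    calc ∑ l ∈ Finset.range m, ‖(z j ^ l - z i ^ l) * z j ^ (m - 1 - l)‖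
        ≤ ∑ l ∈ Finset.range m, (l : ℝ) * (1 / m) := by
          refine Finset.sum_le_sum fun l _ => ?_
          rw [norm_mul, norm_pow, hz j, one_pow, mul_one]
          refine (pow_sub_le (hz j) (hz i) l).trans ?_
          exact mul_le_mul_of_nonneg_left h (Nat.cast_nonneg l)
      _ = (∑ l ∈ Finset.range m, (l : ℝ)) * (1 / m) := by rw [Finset.sum_mul]
      _ ≤ (m : ℝ) / 2 := by
          have hs : ∑ l ∈ Finset.range m, (l : ℝ) = m * (m - 1) / 2 := by
            have := Finset.sum_range_id_mul_two m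
            have h2 : (∑ l ∈ Finset.range m, (l : ℝ)) * 2 = m * (m - 1) := by
              have h3 : ((∑ l ∈ Finset.range m, l : ℕ) : ℝ) * 2 = m * ((m - 1 : ℕ) : ℝ) := by
                exact_mod_cast this
              rw [Nat.cast_sub hm] at h3
              push_cast at h3
              exact h3
            linarith
          rw [hs]
          have : (m : ℝ) * (m - 1) / 2 * (1 / m) = (m - 1) / 2 := by
            field_simp
          rw [this]
          linarith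
  have h2 : ‖(m : ℂ) * z j ^ (m - 1)‖ = m := by
    rw [norm_mul, norm_pow, hz j, one_pow, mul_one]
    simp
  rw [e]
  have h3 := norm_sub_norm_le ((m : ℂ) * z j ^ (m - 1))
    (∑ l ∈ Finset.range m, (z j ^ l - z i ^ l) * z j ^ (m - 1 - l))
  rw [h2] at h3
  linarith

lemma mom_sq {ν : Measure (Fin N → ℂ)} (hM : MomN N D ν) (F : MvPolynomial (Fin N) ℂ)
    (hF : ∀ j, F.degreeOf j ≤ D) :
    ∫ z, ‖MvPolynomial.eval z F‖ ^ 2 ∂ν = ∫ θ, ‖MvPolynomial.eval (ez θ) F‖ ^ 2 ∂(muN N) := by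
  have h := hM F F hF hF
  rw [← int_mu (fun z => MvPolynomial.eval z F * (starRingEnd ℂ) (MvPolynomial.eval z F))] at h
  have e : ∀ z : Fin N → ℂ, MvPolynomial.eval z F * (starRingEnd ℂ) (MvPolynomial.eval z F) =
      ((‖MvPolynomial.eval z F‖ ^ 2 : ℝ) : ℂ) := by
    intro z
    rw [Complex.mul_conj, Complex.normSq_eq_norm_sq]
  simp only [e] at h
  rw [integral_complex_ofReal, integral_complex_ofReal] at h
  exact_mod_cast h

lemma ez_unit (θ : Fin N → ℝ) (i : Fin N) : ‖ez θ i‖ = 1 := by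
  unfold ez
  rw [mul_comm, Complex.norm_exp_ofReal_mul_I]

lemma pc (F : MvPolynomial (Fin N) ℂ) : Continuous fun z : Fin N → ℂ => ‖MvPolynomial.eval z F‖ :=
  (Pool.Agent.R319.UM.poly_cont F).norm

/-- real form of the Haar bounds -/
lemma haarR {i j : Fin N} (hij : i < j) {m : ℕ} (hm : 1 ≤ m) :
    ∫ θ, ‖MvPolynomial.eval (ez θ) (SP i j m)‖ ^ 4 ∂(muN N) ≤ 151 * (4 * N + 1) ^ 3 * m ∧
    ∫ θ, ‖MvPolynomial.eval (ez θ) (SP i j m)‖ ^ 6 * ‖ez θ j - ez θ i‖ ^ 2 ∂(muN N) ≤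
      604 * (4 * N + 1) ^ 3 * m := by
  obtain ⟨h1, h2⟩ := haarS hij hm
  have hc : Continuous fun θ : Fin N → ℝ => ‖MvPolynomial.eval (ez θ) (SP i j m)‖ :=
    (pc _).comp ez_cont
  have m1 : AEStronglyMeasurable (fun θ : Fin N → ℝ =>
      ‖MvPolynomial.eval (ez θ) (SP i j m)‖ ^ 4) (muN N) := (hc.pow 4).aestronglyMeasurable
  have m2 : AEStronglyMeasurable (fun θ : Fin N → ℝ =>
      ‖MvPolynomial.eval (ez θ) (SP i j m)‖ ^ 6 * ‖ez θ j - ez θ i‖ ^ 2) (muN N) :=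
    ((hc.pow 6).mul ((dist_cont j i).pow 2)).aestronglyMeasurable
  constructor
  · rw [integral_eq_lintegral_of_nonneg_ae (Eventually.of_forall fun θ => by positivity) m1]
    exact ENNReal.toReal_le_of_le_ofReal (by positivity) h1
  · rw [integral_eq_lintegral_of_nonneg_ae (Eventually.of_forall fun θ => by positivity) m2]
    exact ENNReal.toReal_le_of_le_ofReal (by positivity) h2

/-- upper bound for one pair -/
lemma pair_up {ν : Measure (Fin N → ℂ)} [IsProbabilityMeasure ν] (hu : ∀ᵐ z ∂ν, ∀ i, ‖z i‖ = 1)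
    (hM : MomN N D ν) {i j : Fin N} (hij : i < j) {m : ℕ} (hm : 1 ≤ m) (hD : 2 * m ≤ D) :
    ν.real {z | ‖z j - z i‖ ≤ 1 / m} ≤ 2416 * (4 * N + 1) ^ 3 / (m : ℝ) ^ 3 := by
  have hm0 : (0 : ℝ) < m := by exact_mod_cast hm
  set S := SP i j m with hS
  have hmom := mom_sq hM (S ^ 2) (fun v => (MvPolynomial.degreeOf_pow_le _ _ _).trans (by
    have := SP_deg i j v m
    rw [← hS] at this
    omega))
  simp only [map_pow, norm_pow, ← pow_mul] at hmom
  norm_num at hmom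
  have hA : MeasurableSet {z : Fin N → ℂ | ‖z j - z i‖ ≤ 1 / m} :=
    (isClosed_le (((continuous_apply j).sub (continuous_apply i)).norm)
      continuous_const).measurableSet
  have hI : Integrable (fun z : Fin N → ℂ => ‖MvPolynomial.eval z S‖ ^ 4) ν := by
    refine Integrable.of_bound (C := (m : ℝ) ^ 4) ((pc S).pow 4).aestronglyMeasurable ?_
    filter_upwards [hu] with z hz
    rw [Real.norm_eq_abs, abs_of_nonneg (by positivity)]
    exact pow_le_pow_left₀ (norm_nonneg _) (SP_le hz i j m) 4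
  have h1 : ((m : ℝ) / 2) ^ 4 * ν.real {z | ‖z j - z i‖ ≤ 1 / m} ≤
      ∫ z, ‖MvPolynomial.eval z S‖ ^ 4 ∂ν := by
    have h2 : ∫ z, ({z : Fin N → ℂ | ‖z j - z i‖ ≤ 1 / m}.indicator
        (fun _ => ((m : ℝ) / 2) ^ 4)) z ∂ν = ((m : ℝ) / 2) ^ 4 *
          ν.real {z | ‖z j - z i‖ ≤ 1 / m} := by
      rw [integral_indicator hA, setIntegral_const, smul_eq_mul, mul_comm]
    rw [← h2]
    refine integral_mono_ae ((integrable_const _).indicator hA) hI ?_
    filter_upwards [hu] with z hz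
    by_cases hzA : z ∈ {z : Fin N → ℂ | ‖z j - z i‖ ≤ 1 / m}
    · rw [Set.indicator_of_mem hzA]
      exact pow_le_pow_left₀ (by positivity) (SP_ge hz hm hzA) 4
    · rw [Set.indicator_of_notMem hzA]
      positivity
  rw [hmom] at h1
  have h3 := h1.trans (haarR hij hm).1
  rw [le_div_iff₀ (by positivity)]
  have h4 : ((m : ℝ) / 2) ^ 4 = m * (m ^ 3 / 16) := by ring
  rw [h4] at h3
  have h5 : (m : ℝ) * ((m : ℝ) ^ 3 / 16 * ν.real {z | ‖z j - z i‖ ≤ 1 / m}) ≤
      m * (151 * (4 * N + 1) ^ 3) := by linarith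
  have h6 := le_of_mul_le_mul_left h5 hm0
  linarith

lemma gap_att {z : Fin N → ℂ} {r : ℝ} (hr : 0 ≤ r) (h : gap z ≤ ENNReal.ofReal r) :
    ∃ i j : Fin N, i < j ∧ ‖z j - z i‖ ≤ r := by
  classical
  by_contra hcon
  push Not at hcon
  have hcon' : ∀ i j : Fin N, i ≠ j → r < ‖z i - z j‖ := by
    intro i j hij
    rcases lt_or_gt_of_ne hij with h1 | h1
    · rw [norm_sub_rev]
      exact hcon i j h1
    · exact hcon j i h1
  obtain ⟨δ, hδ, hall⟩ : ∃ δ : ℝ, r < δ ∧ ∀ p : Fin N × Fin N, p.1 ≠ p.2 → δ ≤ ‖z p.1 - z p.2‖ := by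
    have : ∀ s : Finset (Fin N × Fin N), ∃ δ : ℝ, r < δ ∧ ∀ p ∈ s, p.1 ≠ p.2 →
        δ ≤ ‖z p.1 - z p.2‖ := by
      intro s
      induction s using Finset.induction_on with
      | empty => exact ⟨r + 1, by linarith, by simp⟩
      | insert a s _ ih =>
        obtain ⟨δ, hδ, h⟩ := ih
        by_cases ha : a.1 = a.2
        · refine ⟨δ, hδ, fun p hp hne => ?_⟩
          rcases Finset.mem_insert.1 hp with rfl | hp
          · exact absurd ha hne
          · exact h p hp hne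
        · refine ⟨min δ (‖z a.1 - z a.2‖), lt_min hδ (hcon' _ _ ha), fun p hp hne' => ?_⟩
          rcases Finset.mem_insert.1 hp with rfl | hp
          · exact min_le_right _ _
          · exact (min_le_left _ _).trans (h p hp hne')
    obtain ⟨δ, hδ, h⟩ := this Finset.univ
    exact ⟨δ, hδ, fun p => h p (Finset.mem_univ p)⟩
  have h2 : ENNReal.ofReal δ ≤ gap z :=
    le_iInf fun i => le_iInf fun j => le_iInf fun hij => ENNReal.ofReal_le_ofReal (hall (i, j) hij)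
  have h3 := (ENNReal.ofReal_le_ofReal_iff hr).1 (h2.trans h)
  linarith

/-- upper bound for the smallest gap -/
theorem up {ν : Measure (Fin N → ℂ)} [IsProbabilityMeasure ν] (hu : ∀ᵐ z ∂ν, ∀ i, ‖z i‖ = 1)
    (hM : MomN N D ν) {m : ℕ} (hm : 1 ≤ m) (hD : 2 * m ≤ D) :
    ν {z | gap z ≤ ENNReal.ofReal (1 / m)} ≤
      ENNReal.ofReal (2500 * (4 * (N : ℝ) + 1) ^ 3 * (N : ℝ) ^ 2 / (m : ℝ) ^ 3) := by
  classical
  have hm0 : (0 : ℝ) < m := by exact_mod_cast hm
  have hsub : {z : Fin N → ℂ | gap z ≤ ENNReal.ofReal (1 / m)} ⊆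
      ⋃ p ∈ (Finset.univ.filter fun p : Fin N × Fin N => p.1 < p.2),
        {z : Fin N → ℂ | ‖z p.2 - z p.1‖ ≤ 1 / m} := by
    intro z hz
    obtain ⟨i, j, hij, h⟩ := gap_att (by positivity) hz
    simp only [Set.mem_iUnion]
    exact ⟨(i, j), Finset.mem_filter.2 ⟨Finset.mem_univ _, hij⟩, h⟩
  refine (measure_mono hsub).trans ((measure_biUnion_finset_le _ _).trans ?_)
  have hb : ∀ p ∈ (Finset.univ.filter fun p : Fin N × Fin N => p.1 < p.2),
      ν {z : Fin N → ℂ | ‖z p.2 - z p.1‖ ≤ 1 / m} ≤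
        ENNReal.ofReal (2416 * (4 * N + 1) ^ 3 / (m : ℝ) ^ 3) := by
    intro p hp
    have h1 := pair_up hu hM (Finset.mem_filter.1 hp).2 hm hD
    rw [← ofReal_measureReal]
    exact ENNReal.ofReal_le_ofReal h1
  refine (Finset.sum_le_sum hb).trans ?_
  rw [Finset.sum_const, nsmul_eq_mul]
  have hcard : (((Finset.univ.filter fun p : Fin N × Fin N => p.1 < p.2).card : ℕ) : ℝ) ≤
      (N : ℝ) ^ 2 := by
    have : (Finset.univ.filter fun p : Fin N × Fin N => p.1 < p.2).card ≤ N ^ 2 := by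
      refine (Finset.card_filter_le _ _).trans ?_
      rw [Finset.card_univ, Fintype.card_prod, Fintype.card_fin, sq]
    exact_mod_cast this
  rw [← ENNReal.ofReal_natCast, ← ENNReal.ofReal_mul (Nat.cast_nonneg _)]
  apply ENNReal.ofReal_le_ofReal
  have hq : 0 ≤ (4 * (N : ℝ) + 1) ^ 3 / (m : ℝ) ^ 3 := by positivity
  calc (((Finset.univ.filter fun p : Fin N × Fin N => p.1 < p.2).card : ℕ) : ℝ) *
      (2416 * (4 * N + 1) ^ 3 / (m : ℝ) ^ 3)
      ≤ (N : ℝ) ^ 2 * (2416 * (4 * N + 1) ^ 3 / (m : ℝ) ^ 3) := by gcongr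
    _ = 2416 * ((N : ℝ) ^ 2 * ((4 * (N : ℝ) + 1) ^ 3 / (m : ℝ) ^ 3)) := by ring
    _ ≤ 2500 * ((N : ℝ) ^ 2 * ((4 * (N : ℝ) + 1) ^ 3 / (m : ℝ) ^ 3)) := by gcongr; norm_num
    _ = _ := by ring

end Pool.Agent.R319.SF
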